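import Pool.Agent.N77.CP.Fin

/-!
# Groups acting on trees with commensurable stabilizers

`C` is any class of groups with the closure properties `ClosedE C` which contains the metabelian
groups; all this is published for the class of the groups that satisfy the Farrell–Jones conjecture for
`A`-theory with coefficients (for all free `G`-CW-complexes `Z`) and finite wreath products. This
class also contains the groups `GL_m(ℚ)`, `m ≥ 0`.

Let `G` act on a tree and let `N` be a normal subgroup of `G` with `G ⧸ N` in `C`. Suppose that the
stabilizers in `N` of any two vertices are commensurable (it is enough that this holds for adjacent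
vertices), and have no finite normal subgroups except the trivial one. Let `P` be the stabilizer of one
vertex in `N`. Then `G` is in `C` if one of the following conditions holds.

* The abstract commensurator of `P` is in `C`.
* There is a homomorphism from `G` to a group in `C` such that the elements of its kernel centralize
  subgroups of finite index of `P`.
* `C` contains the groups `GL_m(ℚ)`, and `P` has a torsion-free polycyclic subgroup of finite index
  (solvable, with all subgroups finitely generated).

The last condition covers for instance all graphs of groups (finite or infinite) with torsion-free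
virtually polycyclic vertex groups and edge groups of finite index in both vertex groups, for arbitrary
inclusions of the edge groups: the generalized Baumslag–Solitar groups of every rank, the groups of
Leary and Minasyan and their analogues with nilpotent and polycyclic vertex groups; and all extensions
of groups in `C` whose kernels are such groups. No acylindrical action is needed.

Outline of the proof. `G` commensurates `P`. The representations of the commensurator on the rational
hulls of the derived series of a subgroup of finite index of `P` with a minimality property show that
the kernel of a homomorphism from `G` to a group in `C` centralizes subgroups of finite index of `P`.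
In the kernel the vertex stabilizers are FC-groups, hence abelian, and one applies the theorem on edge
groups which embed in the first homology of the vertex groups.
-/

set_option autoImplicit false

namespace Pool.Agent.Results.MP_2a547c_gt.CommensurableStabilizers

open Pool.Agent.Y110.FJ (ClosedE)
open Pool.Agent.N24.CM (Comm)

theorem result (C : ∀ (G : Type) [Group G], Prop) (hC : ClosedE C)
    (hM : ∀ (G : Type) [Group G], derivedSeries G 2 = ⊥ → C G)
    {G V : Type} [Group G] [MulAction G V] (T : SimpleGraph V) (hT : T.IsTree)
    (hact : ∀ (g : G) (x y : V), T.Adj x y → T.Adj (g • x) (g • y))
    (N : Subgroup G) [N.Normal] (hQ : C (G ⧸ N))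
    (hfin : ∀ x y : V, T.Adj x y →
      (N ⊓ MulAction.stabilizer G x).relIndex (N ⊓ MulAction.stabilizer G y) ≠ 0)
    (hfn : ∀ (x : V) (F : Subgroup ↥(N ⊓ MulAction.stabilizer G x)), F.Normal → Finite F → F = ⊥)
    (o : V)
    (h : C (Comm ↥(N ⊓ MulAction.stabilizer G o)) ∨
      (∃ (Q : Type) (_ : Group Q) (ρ : G →* Q), C Q ∧ ∀ g : G, ρ g = 1 →
        (Subgroup.centralizer {g}).relIndex (N ⊓ MulAction.stabilizer G o) ≠ 0) ∨
      ((∀ m : ℕ, C (Matrix.GeneralLinearGroup (Fin m) ℚ)) ∧
        ∃ P : Subgroup G, P ≤ N ⊓ MulAction.stabilizer G o ∧
          P.relIndex (N ⊓ MulAction.stabilizer G o) ≠ 0 ∧ Group.IsSolvable P ∧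
          (∀ H : Subgroup P, H.FG) ∧ ∀ (x : P) (n : ℕ), 0 < n → x ^ n = 1 → x = 1)) : C G := by
  obtain ⟨h1, h2⟩ := Pool.Agent.N77.CP.final hC hM T hT hact N hQ hfin hfn o
  rcases h with h | h | ⟨hL, hP⟩
  · exact h1 (Or.inl h)
  · exact h1 (Or.inr h)
  · exact h2 hL hP

end Pool.Agent.Results.MP_2a547c_gt.CommensurableStabilizers
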