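import Pool.Agent.N509.TK.Loc2

/-!
# Groups acting on trees: edge groups detected in the first homology of the vertex groups

`C` is any class of groups with the closure properties `ClosedE C` (it contains `ℤ`, is closed under
subgroups, finite products, free products, overgroups of finite index, directed colimits with
arbitrary structure maps, and satisfies the extension criterion) which contains the metabelian
groups. All this is published for the class of the groups that satisfy the Farrell–Jones conjecture for
`A`-theory with coefficients (for all free `G`-CW-complexes `Z`) and finite wreath products.

Let `G` act on a tree `T` (with or without inversions, with any number of orbits), and let `N` be a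
normal subgroup of `G` with `G ⧸ N` in `C`. For `g` in `G` let `N⟨g⟩` be the subgroup generated by
`N` and `g`. Suppose that the stabilizers of the vertices in the groups `N⟨g⟩` are in `C`, and that for
every `g` and every edge `v u` there is a homomorphism `f` from `N⟨g⟩` to a group in `C` such that
the stabilizer of the edge `v u` in `N⟨g⟩` and `[K, K]` intersect trivially, where `K` is the stabilizer
of the vertex `v` in the kernel of `f`. Then `G` is in `C`.

The group in `C` and the homomorphism may depend on `g` and on the edge. For `N = G` and trivial `f`
the condition says that the edge groups embed in the abelianizations of the vertex groups; examples are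
all graphs of abelian groups. In general `K` may be much smaller than the vertex group: it is enough
that finite quotients, linear representations over `ℚ`, or the action on another object detect the part
of the edge group in the commutator subgroup of the vertex group.

Outline of the proof. One passes to finitely many orbits of edges and to one homomorphism `f` with kernel
`L`, and to the subgroup `H` generated by the stabilizers `K_v` of the vertices in `L`. Characters of `K_v`
with values in a divisible group extend along edges because the edge groups embed in `K_u / [K_u, K_u]`.
So they extend to all of `H` by a holonomy argument, and `K_v ∩ [H, H] = [K_v, K_v]`. Therefore `G ⧸ [H, H]`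
is in `C` (an extension of `G ⧸ H`, which is in `C`, with abelian kernel), the group `[H, H]` acts on the
tree with trivial edge stabilizers, and extensions with such kernels can be treated.
-/

set_option autoImplicit false

namespace Pool.Agent.Results.MP_2a547c_gt.HomologicalEdgeGroups

open Pool.Agent.Y110.FJ (ClosedE)

theorem result (C : ∀ (G : Type) [Group G], Prop) (hC : ClosedE C)
    (hM : ∀ (G : Type) [Group G], derivedSeries G 2 = ⊥ → C G)
    {G V : Type} [Group G] [MulAction G V] (T : SimpleGraph V) (hT : T.IsTree)
    (hact : ∀ (g : G) (u v : V), T.Adj u v → T.Adj (g • u) (g • v))
    (N : Subgroup G) [N.Normal] (hQ : C (G ⧸ N))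
    (hV : ∀ (g : G) (v : V), C ↥(MulAction.stabilizer ↥(N ⊔ Subgroup.zpowers g) v))
    (hE : ∀ (g : G) (v u : V), T.Adj v u →
      ∃ (P : Type) (_ : Group P) (f : ↥(N ⊔ Subgroup.zpowers g) →* P), C P ∧
        ∀ x : ↥(N ⊔ Subgroup.zpowers g), x • v = v → x • u = u →
          x ∈ ⁅MulAction.stabilizer _ v ⊓ f.ker, MulAction.stabilizer _ v ⊓ f.ker⁆ → x = 1) :
    C G :=
  Pool.Agent.N509.TK.hrelative hC hM hT hact N hQ hV hE

end Pool.Agent.Results.MP_2a547c_gt.HomologicalEdgeGroups
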