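import Pool.Agent.L7h59.LF.Lf
import Pool.Agent.L7h58.SK.Main

/-!
# MP_2a547c_gt: the assembly map for A-theory with coefficients in degree one

Let `Z` be a connected free `G`-CW-complex and `π : Γ → G` the homomorphism on fundamental groups
given by the covering `Z → Z/G` (`Γ = π₁(Z/G)`). For a subgroup `H` of `G` the group `π⁻¹(H)` is the
fundamental group of `Z/H`, and `π₁(A(Z/H)) = K₁(ℤ[π⁻¹(H)])`. Every homomorphism `π` onto `G` occurs.

The theorem says that the map `colim π₁(A(Z/H)) → π₁(A(Z/G))`, `H` ranging over the finite subgroups of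
`G`, is injective up to torsion on the subgroup generated by the images of the groups `K₁(ℤ[F])`, `F` a
finite subgroup of `π₁(Z/H)`, for every group `G` and every `Z`, and that it is injective up to torsion
if the fundamental group of `Z` is locally finite.
-/

set_option autoImplicit false

namespace Pool.Agent.Results.MP_2a547c_gt.LocallyFiniteCoefficients

open Pool.Agent Pool.Agent.Y69 Pool.Agent.L7h59.LF

theorem dimZ (s : Finset ℤ) : ∃ t : Finset ℤ, s ⊆ t ∧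
    Ring.KrullDimLE 1 (Algebra.adjoin ℤ (t : Set ℤ)) := by
  refine ⟨s, fun _ h => h, ?_⟩
  have h : Algebra.adjoin ℤ (s : Set ℤ) = ⊤ := Subsingleton.elim _ _
  rw [h, Ring.krullDimLE_iff,
    ringKrullDim_eq_of_ringEquiv (Subalgebra.topEquiv (R := ℤ) (A := ℤ)).toRingEquiv]
  exact Ring.krullDimLE_iff.1 inferInstance

theorem result {Γ G : Type} [Group Γ] [Group G] (π : Γ →* G) :
    ∃ A : PColim ℤ π →+ FJ.K1 (MonoidAlgebra ℤ Γ),
      (∀ (H : Y69.FinSub G) (x : PK ℤ π H.1), A (PColim.cl ℤ π H x) = PK.incl ℤ π H.1 x) ∧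
      (∀ z ∈ finPart ℤ π, (∃ n : ℕ, 0 < n ∧ n • A z = 0) → ∃ l : ℕ, 0 < l ∧ l • z = 0) ∧
      ((∀ s : Finset Γ, (∀ x ∈ s, π x = 1) → Finite (Subgroup.closure (s : Set Γ))) →
        ∀ z, (∃ n : ℕ, 0 < n ∧ n • A z = 0) → ∃ l : ℕ, 0 < l ∧ l • z = 0) := by
  have hZ : ∀ (x : FJK.ColimK1 ℤ Γ) (n : ℕ), 0 < n → n • FJK.assembly ℤ Γ x = 0 →
      ∃ l : ℕ, 0 < l ∧ l • x = 0 := fun x n hn h =>
    Pool.Agent.L7h58.SK.fin_tor ℤ Γ
      (fun C _ _ _ m M hM => Pool.Agent.L7h58.SK.sk1_union ℤ dimZ C m M hM) x n hn h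
  refine ⟨asm ℤ π, asm_cl ℤ π, ?_, ?_⟩
  · rintro z hz ⟨n, hn, h⟩
    exact main ℤ π hZ z hz n hn h
  · rintro hk z ⟨n, hn, h⟩
    exact main ℤ π hZ z (finPart_eq_top π ℤ hk z) n hn h

end Pool.Agent.Results.MP_2a547c_gt.LocallyFiniteCoefficients
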