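import Pool.Agent.L7h78.RS.Graph

/-!
# Groups acting by reflections, with arbitrary chamber stabilizers

`C` is any class of groups with the closure properties `ClosedE C` which contains the Coxeter groups
of finite rank. This is known for the class of the groups that satisfy the Farrell–Jones conjecture
for `A`-theory with coefficients and finite wreath products (finitely generated Coxeter groups act
properly and cocompactly on the CAT(0) complex of Davis).

Let `G` act on a connected graph `Ω` (the chambers, adjacent if they have a common panel), and let `R`
be a set of involutions in `G`, invariant under conjugation (`ReflSys Ω R`): every edge is flipped by
exactly one element of `R`, every element of `R` flips an edge, and the edges flipped by it are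
the edges between a set of vertices (a half space) and its complement. Then `G` is in `C` if and only
if the stabilizer of a chamber is in `C`.

Nothing is assumed about the stabilizer, which need not be finitely generated; the graph need not be
locally finite, the chambers may have infinitely many walls in infinitely many orbits, and no
splitting of `G` or presentation of the subgroup generated by `R` is given. So the conjecture holds for
all groups acting by reflections (for instance discretely on simply connected manifolds or complexes
with walls which separate) if it holds for the symmetry groups of the chambers.

Outline of the proof. Let `N` be the subgroup generated by `R`. The reflections which separate `x₀`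
from `g x₀` are a cocycle on `G`, and so in `N` the number of these reflections is the length with
respect to the reflections in the walls of `x₀`. By induction on the length one sees that `N` is the
Coxeter group given by the orders of the products of two of them: two different left descents of an
element generate a finite dihedral group, from which the element starts with a longest word. The
subgroup `N` acts simply transitively on the chambers, so `G` is the semidirect product of `N` and the
stabilizer of `x₀`, which permutes the walls of `x₀`. Now one can apply the theorem on extensions by
Coxeter groups of arbitrary rank (starting files, `Pool.Agent.N77.CX`; `MP_63c928_gt.CoxeterKernels`).
-/

set_option autoImplicit false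

namespace Pool.Agent.Results.MP_2a547c_gt.ReflectionSystems

open Pool.Agent.Y110.FJ (ClosedE)
open Pool.Agent.L7h78.RS (ReflSys)

theorem result (C : ∀ (G : Type) [Group G], Prop) (hC : ClosedE C)
    (hcox : ∀ (S : Type) (_ : Finite S) (A : CoxeterMatrix S), C A.Group)
    {G V : Type} [Group G] [MulAction G V] (Ω : SimpleGraph V) (R : Set G) (h : ReflSys Ω R)
    (x₀ : V) : C G ↔ C ↥(MulAction.stabilizer G x₀) :=
  ⟨fun hG => hC.base.of_injective _ _ (MulAction.stabilizer G x₀).subtype Subtype.val_injective hG,
    fun hQ => Pool.Agent.L7h78.RS.refl_main hC hcox h x₀ hQ⟩

end Pool.Agent.Results.MP_2a547c_gt.ReflectionSystems
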